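import Mathlib
import Pool.Agent.H157R2.Menger

/-!
# Edge-connected subgraphs forced by average edge-connectivity

For every `l ≥ 1` the largest `t` such that every graph of average edge-connectivity at least `l`
contains a `t`-edge-connected subgraph is `⌊l / 2⌋ + 1`.
-/

namespace Pool.Agent.Results.MP_3eb4be_co.ForcedEdgeConnectivity

open SimpleGraph Pool.Agent.H157R2.Menger

/-- `lam G u v`: the maximum number of pairwise edge-disjoint `u`-`v` paths in `G`. -/
noncomputable def lam {V : Type} (G : SimpleGraph V) (u v : V) : ℕ :=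
  sSup {m : ℕ | ∃ p : Fin m → G.Walk u v, (∀ i, (p i).IsPath) ∧
    Pairwise (fun i j => List.Disjoint (p i).edges (p j).edges)}

/-- The average edge-connectivity of `G`: the average of `lam G u v` over all ordered pairs of
distinct vertices (equivalently, over all unordered pairs). -/
noncomputable def avgLam {V : Type} [Fintype V] [DecidableEq V] (G : SimpleGraph V) : ℝ :=
  (∑ p ∈ (Finset.univ : Finset V).offDiag, (lam G p.1 p.2 : ℝ)) /
    ((Fintype.card V : ℝ) * ((Fintype.card V : ℝ) - 1))

/-- `H` is `t`-edge-connected: it has at least two vertices and `H - T` is connected for every set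
`T` of fewer than `t` edges of `H`. -/
def EdgeConn {W : Type} (t : ℕ) (H : SimpleGraph W) : Prop :=
  Nontrivial W ∧ ∀ T : Finset (Sym2 W), (T : Set (Sym2 W)) ⊆ H.edgeSet → T.card < t →
    (H.deleteEdges (T : Set (Sym2 W))).Connected

/-- Every graph (of order at least two) of average edge-connectivity at least `l` contains a
`t`-edge-connected subgraph. -/
def Forced (l t : ℕ) : Prop :=
  ∀ (V : Type) [Fintype V] [DecidableEq V] (G : SimpleGraph V), 2 ≤ Fintype.card V →
    (l : ℝ) ≤ avgLam G → ∃ (W : Type) (H : SimpleGraph W), H ⊑ G ∧ EdgeConn t H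

/-! ### Local edge-connectivity is at most the degree -/

lemma paths_le_degree {V : Type} [Fintype V] [DecidableEq V] (G : SimpleGraph V)
    [DecidableRel G.Adj] {u v : V} (huv : u ≠ v) {m : ℕ} (p : Fin m → G.Walk u v)
    (hp : Pairwise (fun i j => List.Disjoint (p i).edges (p j).edges)) : m ≤ G.degree u := by
  classical
  have hnil : ∀ i, ¬ (p i).Nil := fun i h => huv h.eq
  have h1 : ∀ i, s(u, (p i).snd) ∈ (p i).edges := by
    intro i
    have h2 := Walk.cons_tail_eq (p i) (hnil i)
    rw [← h2, Walk.edges_cons]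
    simp
  have hinj : Set.InjOn (fun i : Fin m => (p i).snd) (Finset.univ : Finset (Fin m)) := by
    intro i _ j _ hij
    by_contra hne
    have hij : (p i).snd = (p j).snd := hij
    exact hp hne (h1 i) (by rw [hij]; exact h1 j)
  have := Finset.card_le_card_of_injOn (s := (Finset.univ : Finset (Fin m)))
    (t := G.neighborFinset u) (fun i => (p i).snd) (fun i _ => by
      rw [Finset.mem_coe, mem_neighborFinset]
      exact (p i).adj_snd (hnil i)) hinj
  simpa using this

lemma lam_le_degree {V : Type} [Fintype V] [DecidableEq V] (G : SimpleGraph V)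
    [DecidableRel G.Adj] {u v : V} (huv : u ≠ v) : lam G u v ≤ G.degree u := by
  refine csSup_le ⟨0, fun i => i.elim0, fun i => i.elim0, fun i => i.elim0⟩ ?_
  rintro m ⟨p, -, hp⟩
  exact paths_le_degree G huv p hp

lemma le_lam {V : Type} [Fintype V] [DecidableEq V] (G : SimpleGraph V)
    [DecidableRel G.Adj] {u v : V} (huv : u ≠ v) (m : ℕ)
    (h : ∀ S : Finset V, u ∈ S → v ∉ S → m ≤ (cut G S).card) : m ≤ lam G u v := by
  refine le_csSup ⟨G.degree u, ?_⟩ (edge_menger G u v huv m h)
  rintro m ⟨p, -, hp⟩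
  exact paths_le_degree G huv p hp

/-! ### The lower bound -/

/-- The edges of `G` inside `A`. -/
def inner {V : Type} [Fintype V] [DecidableEq V] (G : SimpleGraph V) [DecidableRel G.Adj]
    (A : Finset V) : Finset (Sym2 V) :=
  G.edgeFinset.filter (fun e => ∀ x ∈ e, x ∈ A)

lemma exists_edgeConn {V : Type} [Fintype V] [DecidableEq V] (G : SimpleGraph V)
    [DecidableRel G.Adj] (t : ℕ) (ht : 1 ≤ t) : ∀ (n : ℕ) (A : Finset V), A.card = n → A.Nonempty →
    (t - 1) * (n - 1) < (inner G A).card → ∃ B : Finset V, EdgeConn t (G.induce (B : Set V)) := by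
  intro n
  induction n using Nat.strong_induction_on with
  | _ n ih =>
  intro A hA hne hlt
  by_cases hcon : EdgeConn t (G.induce (A : Set V))
  · exact ⟨A, hcon⟩
  have hpos : 0 < (inner G A).card := by omega
  obtain ⟨e, he⟩ := Finset.card_pos.1 hpos
  have hnt : Nontrivial (A : Set V) := by
    induction e using Sym2.ind with
    | _ x y =>
      obtain ⟨h1, h2⟩ := Finset.mem_filter.1 he
      rw [mem_edgeFinset, mem_edgeSet] at h1
      have hx : x ∈ A := h2 x (by simp)
      have hy : y ∈ A := h2 y (by simp)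
      exact ⟨⟨x, hx⟩, ⟨y, hy⟩, fun h => h1.ne (congrArg Subtype.val h)⟩
  unfold EdgeConn at hcon
  push Not at hcon
  obtain ⟨T, hT1, hT2, hT3⟩ := hcon hnt
  -- a separation
  obtain ⟨x⟩ : Nonempty (A : Set V) := inferInstance
  have hpre : ¬ ((G.induce (A : Set V)).deleteEdges (T : Set (Sym2 (A : Set V)))).Preconnected :=
    fun h => hT3 ⟨h⟩
  unfold Preconnected at hpre
  push Not at hpre
  obtain ⟨a, b, hab⟩ := hpre
  set H := (G.induce (A : Set V)).deleteEdges (T : Set (Sym2 (A : Set V))) with hH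
  classical
  set A₁ : Finset V := A.filter (fun z => ∃ h : z ∈ A, H.Reachable a ⟨z, h⟩) with hA₁
  set A₂ : Finset V := A.filter (fun z => ¬ ∃ h : z ∈ A, H.Reachable a ⟨z, h⟩) with hA₂
  have hcard : A₁.card + A₂.card = A.card := Finset.card_filter_add_card_filter_not _
  have haA₁ : (a : V) ∈ A₁ := Finset.mem_filter.2 ⟨a.2, a.2, Reachable.refl _⟩
  have hbA₂ : (b : V) ∈ A₂ := Finset.mem_filter.2 ⟨b.2, fun ⟨_, h⟩ => hab h⟩
  have h1pos : 0 < A₁.card := Finset.card_pos.2 ⟨_, haA₁⟩
  have h2pos : 0 < A₂.card := Finset.card_pos.2 ⟨_, hbA₂⟩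
  -- inner edges
  have hsub : inner G A ⊆ (inner G A₁ ∪ inner G A₂) ∪ T.image (Sym2.map Subtype.val) := by
    intro e he
    induction e using Sym2.ind with
    | _ x y =>
      obtain ⟨h1, h2⟩ := Finset.mem_filter.1 he
      have h1' := h1
      rw [mem_edgeFinset, mem_edgeSet] at h1
      have hx : x ∈ A := h2 x (by simp)
      have hy : y ∈ A := h2 y (by simp)
      rw [Finset.mem_union, Finset.mem_union]
      by_cases hTe : s((⟨x, hx⟩ : (A : Set V)), (⟨y, hy⟩ : (A : Set V))) ∈ T
      · right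
        exact Finset.mem_image.2 ⟨_, hTe, rfl⟩
      · left
        have hadj : H.Adj ⟨x, hx⟩ ⟨y, hy⟩ := by
          rw [hH, deleteEdges_adj]
          exact ⟨h1, hTe⟩
        by_cases hr : H.Reachable a ⟨x, hx⟩
        · left
          refine Finset.mem_filter.2 ⟨h1', fun z hz => ?_⟩
          rw [Sym2.mem_iff] at hz
          rcases hz with rfl | rfl
          · exact Finset.mem_filter.2 ⟨hx, hx, hr⟩
          · exact Finset.mem_filter.2 ⟨hy, hy, hr.trans hadj.reachable⟩
        · right
          refine Finset.mem_filter.2 ⟨h1', fun z hz => ?_⟩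
          rw [Sym2.mem_iff] at hz
          rcases hz with rfl | rfl
          · exact Finset.mem_filter.2 ⟨hx, fun ⟨_, h⟩ => hr h⟩
          · exact Finset.mem_filter.2 ⟨hy, fun ⟨_, h⟩ => hr (h.trans hadj.symm.reachable)⟩
  have hle := (Finset.card_le_card hsub).trans ((Finset.card_union_le _ _).trans
    (Nat.add_le_add (Finset.card_union_le _ _) Finset.card_image_le))
  by_cases hc1 : (t - 1) * (A₁.card - 1) < (inner G A₁).card
  · exact ih A₁.card (by omega) A₁ rfl ⟨_, haA₁⟩ hc1
  by_cases hc2 : (t - 1) * (A₂.card - 1) < (inner G A₂).card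
  · exact ih A₂.card (by omega) A₂ rfl ⟨_, hbA₂⟩ hc2
  exfalso
  have hn : n - 1 = (A₁.card - 1) + (A₂.card - 1) + 1 := by omega
  rw [hn, Nat.mul_add, Nat.mul_add, Nat.mul_one] at hlt
  omega

lemma forced (l : ℕ) (hl : 1 ≤ l) : Forced l (l / 2 + 1) := by
  intro V _ _ G hV havg
  classical
  have hn : (2 : ℝ) ≤ Fintype.card V := by exact_mod_cast hV
  have hsum : (∑ p ∈ (Finset.univ : Finset V).offDiag, (lam G p.1 p.2 : ℝ)) ≤
      2 * G.edgeFinset.card * ((Fintype.card V : ℝ) - 1) := by
    have h1 : (∑ p ∈ (Finset.univ : Finset V).offDiag, (lam G p.1 p.2)) ≤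
        ∑ p ∈ (Finset.univ : Finset V).offDiag, G.degree p.1 := by
      refine Finset.sum_le_sum fun p hp => ?_
      exact lam_le_degree G (Finset.mem_offDiag.1 hp).2.2
    have h2 : ∑ p ∈ (Finset.univ : Finset V).offDiag, G.degree p.1 + ∑ v : V, G.degree v =
        Fintype.card V * ∑ v : V, G.degree v := by
      have h3 : ∑ p ∈ (Finset.univ ×ˢ Finset.univ : Finset (V × V)), G.degree p.1 =
          Fintype.card V * ∑ v : V, G.degree v := by
        rw [Finset.sum_product, Finset.mul_sum]
        refine Finset.sum_congr rfl fun v _ => ?_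
        change ∑ _y : V, G.degree v = _
        rw [Finset.sum_const, Finset.card_univ, smul_eq_mul]
      rw [← h3, ← Finset.diag_union_offDiag, Finset.sum_union (Finset.disjoint_diag_offDiag _)]
      rw [add_comm]
      congr 1
      rw [Finset.sum_diag]
    rw [sum_degrees_eq_twice_card_edges] at h2
    have h4 : (∑ p ∈ (Finset.univ : Finset V).offDiag, (G.degree p.1 : ℝ)) =
        (Fintype.card V : ℝ) * (2 * G.edgeFinset.card) - 2 * G.edgeFinset.card := by
      have := congrArg (Nat.cast : ℕ → ℝ) h2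
      push_cast at this
      linarith
    have h5 : (∑ p ∈ (Finset.univ : Finset V).offDiag, (lam G p.1 p.2 : ℝ)) ≤
        ∑ p ∈ (Finset.univ : Finset V).offDiag, (G.degree p.1 : ℝ) := by exact_mod_cast h1
    nlinarith
  have hden : (0 : ℝ) < (Fintype.card V : ℝ) * ((Fintype.card V : ℝ) - 1) := by
    apply mul_pos <;> linarith
  unfold avgLam at havg
  rw [le_div_iff₀ hden] at havg
  have hkey : (l : ℝ) * Fintype.card V ≤ 2 * G.edgeFinset.card := by
    have h1 : (0 : ℝ) < (Fintype.card V : ℝ) - 1 := by linarith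
    have h2 := havg.trans hsum
    by_contra hcon
    push Not at hcon
    have := mul_lt_mul_of_pos_right hcon h1
    nlinarith
  have hkey' : l * Fintype.card V ≤ 2 * G.edgeFinset.card := by exact_mod_cast hkey
  have hinner : inner G Finset.univ = G.edgeFinset := by
    unfold inner
    rw [Finset.filter_true_of_mem]
    intro e _ x _
    exact Finset.mem_univ x
  have hlt : (l / 2 + 1 - 1) * (Fintype.card V - 1) < (inner G Finset.univ).card := by
    rw [hinner, Nat.add_sub_cancel]
    have h1 : 2 * (l / 2) ≤ l := Nat.mul_div_le l 2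
    have h2 : 2 * ((l / 2) * (Fintype.card V - 1)) ≤ l * (Fintype.card V - 1) := by
      rw [← Nat.mul_assoc]
      exact Nat.mul_le_mul_right _ h1
    have h3 : l * (Fintype.card V - 1) < l * Fintype.card V :=
      Nat.mul_lt_mul_of_pos_left (by omega) (by omega)
    omega
  obtain ⟨B, hB⟩ := exists_edgeConn G (l / 2 + 1) (by omega) (Fintype.card V) Finset.univ
    Finset.card_univ (by
      have : Nonempty V := Fintype.card_pos_iff.1 (by omega)
      exact Finset.univ_nonempty) hlt
  exact ⟨_, _, ⟨(Embedding.induce (B : Set V)).toCopy⟩, hB⟩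

/-! ### The upper bound -/

/-- The layered graph: `m` layers of `k` vertices, consecutive layers completely joined. -/
def lay (m k : ℕ) : SimpleGraph (Fin m × Fin k) where
  Adj p q := p.1.val + 1 = q.1.val ∨ q.1.val + 1 = p.1.val
  symm := ⟨fun _ _ h => h.symm⟩
  loopless := ⟨fun p h => by rcases h with h | h <;> omega⟩

lemma lay_adj {m k : ℕ} {p q : Fin m × Fin k} :
    (lay m k).Adj p q ↔ (p.1.val + 1 = q.1.val ∨ q.1.val + 1 = p.1.val) := Iff.rfl

/-- Subgraphs of the layered graph are not `(k+1)`-edge-connected. -/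
lemma not_edgeConn (m k : ℕ) (W : Type) (H : SimpleGraph W) (hH : H ⊑ lay m k) :
    ¬ EdgeConn (k + 1) H := by
  classical
  rintro ⟨hnt, hT⟩
  obtain ⟨f⟩ := hH
  have hinj : Function.Injective f := f.injective
  have : Finite W := Finite.of_injective f hinj
  have := Fintype.ofFinite W
  have : Nonempty W := inferInstance
  obtain ⟨x, hx⟩ := Finite.exists_min (fun w : W => (f w).1.val)
  have hadj : ∀ a b, H.Adj a b → (lay m k).Adj (f a) (f b) := fun a b h => f.toHom.map_adj h
  have hnb : ∀ y, H.Adj x y → (f x).1.val + 1 = (f y).1.val := by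
    intro y hy
    rcases hadj x y hy with h | h
    · exact h
    · have := hx y
      omega
  have hdeg : (H.neighborFinset x).card ≤ k := by
    have h1 : (Finset.univ : Finset (Fin k)).card = k := by simp
    conv_rhs => rw [← h1]
    refine Finset.card_le_card_of_injOn (fun y => (f y).2) (fun _ _ => Finset.mem_coe.2 (Finset.mem_univ _)) ?_
    intro y hy z hz hyz
    have hy' := hnb y ((mem_neighborFinset _ _ _).1 (Finset.mem_coe.1 hy))
    have hz' := hnb z ((mem_neighborFinset _ _ _).1 (Finset.mem_coe.1 hz))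
    apply hinj
    exact Prod.ext (Fin.ext (by omega)) hyz
  have hcard : (H.incidenceFinset x).card < k + 1 := by
    rw [card_incidenceFinset_eq_degree]
    exact Nat.lt_succ_of_le hdeg
  have hc := hT (H.incidenceFinset x) (by
    intro e he
    rw [Finset.mem_coe, mem_incidenceFinset] at he
    exact he.1) hcard
  obtain ⟨y, hy⟩ := exists_ne x
  obtain ⟨p⟩ := hc.preconnected x y
  cases p with
  | nil => exact hy rfl
  | @cons _ z _ h q =>
    rw [deleteEdges_adj] at h
    apply h.2
    rw [Finset.mem_coe, mem_incidenceFinset]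
    exact ⟨h.1, by simp⟩

/-- Cuts separating two interior vertices have at least `2 k` edges. -/
lemma cut_lower (m k : ℕ) (hk : 2 ≤ k) [DecidableRel (lay m k).Adj] (u v : Fin m × Fin k)
    (hu : 1 ≤ u.1.val ∧ u.1.val + 1 < m) (hv : 1 ≤ v.1.val ∧ v.1.val + 1 < m)
    (S : Finset (Fin m × Fin k)) (huS : u ∈ S) (hvS : v ∉ S) :
    2 * k ≤ (cut (lay m k) S).card := by
  classical
  have hcut : ∀ p q : Fin m × Fin k, (lay m k).Adj p q → ((p ∈ S ∧ q ∉ S) ∨ (p ∉ S ∧ q ∈ S)) →
      s(p, q) ∈ cut (lay m k) S := by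
    intro p q hpq h
    refine Finset.mem_filter.2 ⟨by rw [mem_edgeFinset]; exact hpq, ?_⟩
    rcases h with ⟨h1, h2⟩ | ⟨h1, h2⟩
    · exact ⟨⟨p, by simp, h1⟩, ⟨q, by simp, h2⟩⟩
    · exact ⟨⟨q, by simp, h2⟩, ⟨p, by simp, h1⟩⟩
  by_cases hA : ∃ i : Fin m, 1 ≤ i.val ∧ i.val + 1 < m ∧ ∃ a b : Fin k, (i, a) ∈ S ∧ (i, b) ∉ S
  · obtain ⟨i, hi1, hi2, a, b, ha, hb⟩ := hA
    -- the opposite end
    let g : Fin k × Bool → Fin m × Fin k := fun x =>
      if x.2 then (⟨i.val + 1, hi2⟩, x.1) else (⟨i.val - 1, by omega⟩, x.1)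
    let o : Fin k × Bool → Fin m × Fin k := fun x => if g x ∈ S then (i, b) else (i, a)
    have hg1 : ∀ x, (g x).1.val ≠ i.val := by
      intro x
      simp only [g]
      split_ifs <;> simp <;> omega
    have ho1 : ∀ x, (o x).1 = i := by
      intro x
      simp only [o]
      split_ifs <;> rfl
    have hadj : ∀ x, (lay m k).Adj (g x) (o x) := by
      intro x
      rw [lay_adj, ho1]
      simp only [g]
      split_ifs <;> simp <;> omega
    have hmem : ∀ x, s(g x, o x) ∈ cut (lay m k) S := by
      intro x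
      apply hcut _ _ (hadj x)
      by_cases h : g x ∈ S
      · left
        refine ⟨h, ?_⟩
        simp only [o, if_pos h]
        exact hb
      · right
        refine ⟨h, ?_⟩
        simp only [o, if_neg h]
        exact ha
    have hginj : Function.Injective g := by
      rintro ⟨c, e⟩ ⟨c', e'⟩ h
      cases e <;> cases e' <;> simp [g] at h ⊢ <;> first | exact h | omega
    have hinj : Function.Injective (fun x => s(g x, o x)) := by
      intro x y hxy
      have hxy : s(g x, o x) = s(g y, o y) := hxy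
      rw [Sym2.eq_iff] at hxy
      rcases hxy with ⟨h, _⟩ | ⟨h, _⟩
      · exact hginj h
      · exfalso
        apply hg1 x
        rw [h, ho1]
    have := Finset.card_le_card_of_injOn (s := (Finset.univ : Finset (Fin k × Bool)))
      (t := cut (lay m k) S) (fun x => s(g x, o x)) (fun x _ => hmem x) (hinj.injOn)
    simp only [Finset.card_univ, Fintype.card_prod, Fintype.card_fin, Fintype.card_bool] at this
    omega
  · push Not at hA
    have hconst : ∀ i : Fin m, 1 ≤ i.val → i.val + 1 < m → ∀ a b : Fin k,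
        ((i, a) ∈ S ↔ (i, b) ∈ S) := fun i h1 h2 a b => ⟨fun h => hA i h1 h2 a b h,
        fun h => hA i h1 h2 b a h⟩
    have h0 : 0 < k := by omega
    -- consecutive layers that differ
    have hex : ∃ (i : ℕ) (hi : i + 2 < m), 1 ≤ i ∧
        ¬ (((⟨i, by omega⟩ : Fin m), (⟨0, h0⟩ : Fin k)) ∈ S ↔
          ((⟨i + 1, by omega⟩ : Fin m), (⟨0, h0⟩ : Fin k)) ∈ S) := by
      by_contra hcon
      push Not at hcon
      have hind : ∀ (i : ℕ) (hi : i + 2 < m),
          (((⟨i + 1, by omega⟩ : Fin m), (⟨0, h0⟩ : Fin k)) ∈ S ↔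
            ((⟨1, by omega⟩ : Fin m), (⟨0, h0⟩ : Fin k)) ∈ S) := by
        intro i
        induction i with
        | zero => intro hi; exact Iff.rfl
        | succ i ih =>
          intro hi
          rw [← ih (by omega)]
          exact (hcon (i + 1) (by omega) (by omega)).symm
      have hall : ∀ w : Fin m × Fin k, 1 ≤ w.1.val → w.1.val + 1 < m →
          (w ∈ S ↔ ((⟨1, by omega⟩ : Fin m), (⟨0, h0⟩ : Fin k)) ∈ S) := by
        rintro ⟨i, a⟩ h1 h2
        simp only at h1 h2
        rw [hconst i h1 h2 a ⟨0, h0⟩, ← hind (i.val - 1) (by omega)]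
        have : (⟨i.val - 1 + 1, by omega⟩ : Fin m) = i := Fin.ext (by simp; omega)
        rw [this]
      exact hvS (((hall u hu.1 hu.2).trans (hall v hv.1 hv.2).symm).1 huS)
    obtain ⟨i, hi, hi1, hne⟩ := hex
    have hdiff : ∀ a b : Fin k, ¬ (((⟨i, by omega⟩ : Fin m), a) ∈ S ↔
        ((⟨i + 1, by omega⟩ : Fin m), b) ∈ S) := by
      intro a b h
      apply hne
      rw [hconst ⟨i, by omega⟩ hi1 (by simp; omega) ⟨0, h0⟩ a, h]
      exact hconst ⟨i + 1, by omega⟩ (by simp) (by simp; omega) b ⟨0, h0⟩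
    have hmem : ∀ x : Fin k × Fin k, s(((⟨i, by omega⟩ : Fin m), x.1),
        ((⟨i + 1, by omega⟩ : Fin m), x.2)) ∈ cut (lay m k) S := by
      intro x
      apply hcut
      · left; rfl
      · have := hdiff x.1 x.2
        tauto
    have hinj : Function.Injective (fun x : Fin k × Fin k => s(((⟨i, by omega⟩ : Fin m), x.1),
        ((⟨i + 1, by omega⟩ : Fin m), x.2))) := by
      intro x y hxy
      simp only [Sym2.eq_iff, Prod.mk.injEq, true_and] at hxy
      rcases hxy with ⟨h1, h2⟩ | ⟨⟨h1, _⟩, _⟩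
      · exact Prod.ext h1 h2
      · have := congrArg Fin.val h1
        simp at this
    have := Finset.card_le_card_of_injOn (s := (Finset.univ : Finset (Fin k × Fin k)))
      (t := cut (lay m k) S) _ (fun x _ => hmem x) (hinj.injOn)
    simp only [Finset.card_univ, Fintype.card_prod, Fintype.card_fin] at this
    have h2 : 2 * k ≤ k * k := Nat.mul_le_mul_right k hk
    omega

/-- The average edge-connectivity of the layered graph with `8 k + 1` layers exceeds `2 k - 1`. -/
lemma avg_lower (k : ℕ) (hk : 2 ≤ k) : (2 * k - 1 : ℝ) ≤ avgLam (lay (8 * k + 1) k) := by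
  classical
  set I : Finset (Fin (8 * k + 1) × Fin k) :=
    Finset.univ.filter (fun p => 1 ≤ p.1.val ∧ p.1.val + 1 < 8 * k + 1) with hI
  have hIcard : I.card = (8 * k - 1) * k := by
    have h1 : I = (Finset.univ.filter (fun i : Fin (8 * k + 1) =>
        1 ≤ i.val ∧ i.val + 1 < 8 * k + 1)) ×ˢ (Finset.univ : Finset (Fin k)) := by
      ext p
      simp [hI]
    rw [h1, Finset.card_product, Finset.card_univ, Fintype.card_fin]
    congr 1
    have h2 : (Finset.univ.filter (fun i : Fin (8 * k + 1) =>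
        1 ≤ i.val ∧ i.val + 1 < 8 * k + 1)).map Fin.valEmbedding = Finset.Ico 1 (8 * k) := by
      ext j
      simp only [Finset.mem_map, Finset.mem_filter, Finset.mem_univ, true_and,
        Fin.valEmbedding_apply, Finset.mem_Ico]
      constructor
      · rintro ⟨i, ⟨h1, h2⟩, rfl⟩
        omega
      · rintro ⟨h1, h2⟩
        exact ⟨⟨j, by omega⟩, ⟨h1, by simp; omega⟩, rfl⟩
    rw [← Finset.card_map Fin.valEmbedding, h2, Nat.card_Ico]
  have hsum : (2 * k : ℝ) * (I.card * (I.card - 1)) ≤
      ∑ p ∈ (Finset.univ : Finset (Fin (8 * k + 1) × Fin k)).offDiag,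
        (lam (lay (8 * k + 1) k) p.1 p.2 : ℝ) := by
    have h1 : ∑ p ∈ I.offDiag, (2 * k) ≤
        ∑ p ∈ (Finset.univ : Finset (Fin (8 * k + 1) × Fin k)).offDiag,
        (lam (lay (8 * k + 1) k) p.1 p.2) := by
      refine (Finset.sum_le_sum (fun p hp => ?_)).trans
        (Finset.sum_le_sum_of_subset (Finset.offDiag_mono (Finset.subset_univ I)))
      obtain ⟨h1, h2, h3⟩ := Finset.mem_offDiag.1 hp
      exact le_lam _ h3 _ (fun S hS hS' => cut_lower _ k hk p.1 p.2 (Finset.mem_filter.1 h1).2
        (Finset.mem_filter.1 h2).2 S hS hS')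
    rw [Finset.sum_const, smul_eq_mul, Finset.offDiag_card] at h1
    have h2 : ((I.card * I.card - I.card : ℕ) : ℝ) = I.card * (I.card - 1) := by
      rw [Nat.cast_sub (Nat.le_mul_self _)]
      push_cast
      ring
    have h3 := (Nat.cast_le (α := ℝ)).2 h1
    push_cast at h3
    rw [h2] at h3
    linarith
  have hV : (Fintype.card (Fin (8 * k + 1) × Fin k) : ℝ) = (8 * k + 1) * k := by
    simp
  have hk' : (2 : ℝ) ≤ k := by exact_mod_cast hk
  have hIr : (I.card : ℝ) = (8 * k - 1) * k := by
    rw [hIcard]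
    push_cast [Nat.cast_sub (show 1 ≤ 8 * k by omega)]
    ring
  unfold avgLam
  rw [hV, le_div_iff₀ (by nlinarith [mul_pos (show (0 : ℝ) < k by linarith) (show (0 : ℝ) < k by linarith)])]
  refine le_trans ?_ hsum
  rw [hIr]
  nlinarith [mul_pos (show (0 : ℝ) < k by linarith) (show (0 : ℝ) < k by linarith),
    mul_nonneg (show (0 : ℝ) ≤ k - 2 by linarith) (show (0 : ℝ) ≤ k - 2 by linarith),
    mul_nonneg (mul_nonneg (show (0 : ℝ) ≤ k by linarith) (show (0 : ℝ) ≤ k by linarith)) (show (0 : ℝ) ≤ k - 2 by linarith)]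

lemma not_forced (l : ℕ) (hl : 1 ≤ l) : ¬ Forced l (l / 2 + 2) := by
  intro hF
  rcases Nat.lt_or_ge l 2 with h1 | h2
  · -- a single edge
    have hl1 : l = 1 := by omega
    subst hl1
    obtain ⟨W, H, hH, hE⟩ := hF (Fin 2 × Fin 1) (lay 2 1) (by simp) (by
      classical
      have key : ∀ p ∈ (Finset.univ : Finset (Fin 2 × Fin 1)).offDiag,
          (1 : ℝ) ≤ lam (lay 2 1) p.1 p.2 := by
        intro p hp
        have hne := (Finset.mem_offDiag.1 hp).2.2
        have : 1 ≤ lam (lay 2 1) p.1 p.2 := by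
          refine le_lam _ hne 1 (fun S h1 h2 => ?_)
          refine Finset.card_pos.2 ⟨s(p.1, p.2), Finset.mem_filter.2 ⟨?_, ⟨p.1, by simp, h1⟩,
            ⟨p.2, by simp, h2⟩⟩⟩
          rw [mem_edgeFinset, mem_edgeSet, lay_adj]
          obtain ⟨⟨a, b⟩, ⟨c, d⟩⟩ := p
          have hbd : b = d := Subsingleton.elim _ _
          have hac : a ≠ c := fun h => hne (by simp [h, hbd])
          have : a.val ≠ c.val := fun h => hac (Fin.ext h)
          simp only
          omega
        exact_mod_cast this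
      have h2 := Finset.sum_le_sum key
      rw [Finset.sum_const, Finset.offDiag_card] at h2
      unfold avgLam
      simp only [Finset.card_univ, Fintype.card_prod, Fintype.card_fin] at h2 ⊢
      norm_num at h2 ⊢
      linarith)
    exact not_edgeConn 2 1 W H hH hE
  · have hk : 2 ≤ l / 2 + 1 := by omega
    have hcard : 2 ≤ Fintype.card (Fin (8 * (l / 2 + 1) + 1) × Fin (l / 2 + 1)) := by
      simp only [Fintype.card_prod, Fintype.card_fin]
      nlinarith
    obtain ⟨W, H, hH, hE⟩ := hF _ (lay (8 * (l / 2 + 1) + 1) (l / 2 + 1)) hcard (by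
      refine le_trans ?_ (avg_lower (l / 2 + 1) hk)
      have : l + 1 ≤ 2 * (l / 2 + 1) := by omega
      have : ((l : ℝ) + 1) ≤ 2 * ((l / 2 + 1 : ℕ) : ℝ) := by exact_mod_cast this
      linarith)
    exact not_edgeConn _ _ W H hH hE

lemma edgeConn_mono {W : Type} {s t : ℕ} (h : s ≤ t) {H : SimpleGraph W} (hH : EdgeConn t H) :
    EdgeConn s H := ⟨hH.1, fun T h1 h2 => hH.2 T h1 (lt_of_lt_of_le h2 h)⟩

/-- **`f(l) = ⌊l/2⌋ + 1`**: for every positive integer `l` the largest `t` such that every graph of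
average edge-connectivity at least `l` contains a `t`-edge-connected subgraph is
`⌊l/2⌋ + 1`. -/
theorem result : ∀ l : ℕ, 1 ≤ l → IsGreatest {t : ℕ | Forced l t} (l / 2 + 1) := by
  intro l hl
  refine ⟨forced l hl, fun t ht => ?_⟩
  by_contra hcon
  push Not at hcon
  apply not_forced l hl
  intro V _ _ G h1 h2
  obtain ⟨W, H, h3, h4⟩ := ht V G h1 h2
  exact ⟨W, H, h3, edgeConn_mono (by omega) h4⟩

end Pool.Agent.Results.MP_3eb4be_co.ForcedEdgeConnectivity
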